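import Mathlib

/-! Project LV (MP_545af4_pr): random walks in a quasi-periodic environment over a Liouville
rotation.  Definitions. -/

namespace Q289.LV

/-- one step of the walk: `(P f)(k) = w k f(k+1) + (1 - w k) f(k-1)` -/
noncomputable def Pop (w : ℤ → ℝ) (f : ℤ → ℝ) (k : ℤ) : ℝ :=
  w k * f (k + 1) + (1 - w k) * f (k - 1)

/-- `Ex w t f k = E_k f(Z_t)` -/
noncomputable def Ex (w : ℤ → ℝ) : ℕ → (ℤ → ℝ) → ℤ → ℝ
  | 0, f => f
  | (t + 1), f => Pop w (Ex w t f)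

/-- the probability, started at `k`, of a visit to `[b, ∞)` before or at time `t` -/
noncomputable def Hit (w : ℤ → ℝ) (b : ℤ) : ℕ → ℤ → ℝ
  | 0, k => if b ≤ k then 1 else 0
  | (t + 1), k => if b ≤ k then 1 else Pop w (Hit w b t) k

/-- the probability, started at `k`, of a visit to `(-∞, a]` before or at time `t` -/
noncomputable def HitL (w : ℤ → ℝ) (a : ℤ) : ℕ → ℤ → ℝ
  | 0, k => if k ≤ a then 1 else 0
  | (t + 1), k => if k ≤ a then 1 else Pop w (HitL w a t) k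

/-- the reflected environment -/
noncomputable def refl (w : ℤ → ℝ) (k : ℤ) : ℝ := 1 - w (-k)

/-- indicator functions -/
noncomputable def one (b : ℤ) (k : ℤ) : ℝ := if k = b then 1 else 0
noncomputable def geI (b : ℤ) (k : ℤ) : ℝ := if b ≤ k then 1 else 0
noncomputable def leI (a : ℤ) (k : ℤ) : ℝ := if k ≤ a then 1 else 0

/-- the environment is elliptic and `V` is its potential -/
structure Env (κ : ℝ) (w V : ℤ → ℝ) : Prop where
  pos : 0 < κ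
  lo : ∀ k, κ ≤ w k
  hi : ∀ k, w k ≤ 1 - κ
  pot : ∀ k, V (k + 1) - V k = Real.log ((1 - w (k + 1)) / w (k + 1))

/-- the setting of case B: `q` is the period, `β` the small rotation, the potential
increases by `φ (x + i β)` over the `i`-th block and the shapes of the blocks vary slowly -/
structure SetB (κ K : ℝ) (T q : ℕ) (β x : ℝ) (w V : ℤ → ℝ) (φ φ₁ φ₂ : ℝ → ℝ) : Prop where
  env : Env κ w V
  K1 : 1 ≤ K
  q1 : 1 ≤ q
  qT : (q : ℝ) ^ 30 ≤ T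
  β0 : 0 < β
  βT : β * (T : ℝ) ^ (0.98 : ℝ) ≤ 1
  d1 : ∀ y, HasDerivAt φ (φ₁ y) y
  d2 : ∀ y, HasDerivAt φ₁ (φ₂ y) y
  b0 : ∀ y, |φ y| ≤ 1
  b1 : ∀ y, |φ₁ y| ≤ K * q
  b2 : ∀ y, |φ₂ y| ≤ K * q
  blk : ∀ i : ℤ, V ((i + 1) * q) - V (i * q) = φ (x + i * β)
  shp : ∀ (k i : ℤ) (r : ℕ),
    |(V (k + i * q + r) - V (k + i * q)) - (V (k + r) - V k)| ≤ K * r * |(i : ℝ)| * β

/-- a starting point which is neither flat nor steep is bad -/
def NotBad (T q : ℕ) (x : ℝ) (φ φ₁ : ℝ → ℝ) : Prop :=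
  ¬ (|φ x| < (1 / 4) * q * (T : ℝ) ^ (-0.1 : ℝ) ∧ q * (T : ℝ) ^ (-0.03 : ℝ) < |φ₁ x|)

/-- the law of `Z_T` is split at a distance `T^0.99`, the right part lying at the right of
`T^0.99 / 2` -/
def SplitR (w : ℤ → ℝ) (T : ℕ) : Prop :=
  ∃ m₁ m₂ : ℤ, (1 / 2) * (T : ℝ) ^ (0.99 : ℝ) ≤ m₂ ∧ (T : ℝ) ^ (0.99 : ℝ) ≤ m₂ - m₁ ∧
    (T : ℝ) ^ (-0.02 : ℝ) ≤ Ex w T (leI m₁) 0 ∧ (T : ℝ) ^ (-0.02 : ℝ) ≤ Ex w T (geI m₂) 0

/-- the quadratic deviation of `Z_T` from some point is at most `9 T^1.985` -/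
def Good (w : ℤ → ℝ) (T : ℕ) : Prop :=
  ∃ c : ℝ, Ex w T (fun k => ((k : ℝ) - c) ^ 2) 0 ≤ 9 * (T : ℝ) ^ (1.985 : ℝ)

/-- the rotation number `∑ 3^(-j!)` -/
noncomputable def al : ℝ := liouvilleNumber 3

/-- the denominators -/
def qn (n : ℕ) : ℕ := 3 ^ n.factorial

/-- the class of symmetric smooth transition functions -/
structure IsP (p : ℝ → ℝ) : Prop where
  smooth : ContDiff ℝ (⊤ : ℕ∞) p
  per : ∀ x, p (x + 1) = p x
  rng : ∀ x, 0 < p x ∧ p x < 1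
  sym : ∫ x in (0:ℝ)..1, Real.log (p x) = ∫ x in (0:ℝ)..1, Real.log (1 - p x)

/-- the environment `k ↦ p (x + k α)` -/
noncomputable def env (p : ℝ → ℝ) (x : ℝ) (k : ℤ) : ℝ := p (x + k * al)

/-- `law w t k = P (Z_t = k)` for the walk started at `0` -/
noncomputable def law (w : ℤ → ℝ) : ℕ → ℤ → ℝ
  | 0, k => if k = 0 then 1 else 0
  | (t + 1), k => w (k - 1) * law w t (k - 1) + (1 - w (k + 1)) * law w t (k + 1)

/-- the variance of `Z_t` -/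
noncomputable def vr (w : ℤ → ℝ) (t : ℕ) : ℝ :=
  (∑' k : ℤ, (k : ℝ) ^ 2 * law w t k) - (∑' k : ℤ, (k : ℝ) * law w t k) ^ 2

end Q289.LV
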