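import Pool.Agent.Q289.LV.Stm

/-! Project LV: assembly. -/

open Filter MeasureTheory

namespace Q289.LV

theorem caseB (h1 : S_B1) (h2 : S_B2) (h3 : S_B3) (h4 : S_B4) : S_CaseB := by
  intro κ K hκ
  by_cases hK : 1 ≤ K
  · obtain ⟨T1, h1⟩ := h1 κ K hκ
    obtain ⟨T2, h2⟩ := h2 κ K hκ
    obtain ⟨T3, h3⟩ := h3 κ K hκ
    obtain ⟨T4, h4⟩ := h4 κ (8 * K + 3) hκ (by linarith)
    refine ⟨T1 + T2 + T3 + T4, ?_⟩
    intro T q β x w V φ φ₁ φ₂ hT hS hN hsp
    obtain ⟨m₁, m₂, hm2, hm, ha, hb⟩ := hsp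
    obtain ⟨c1, c2, c3⟩ := h1 T q β x w V φ φ₁ φ₂ (by omega) hS m₂ hm2 hb
    have c4 := h2 T q β x w V φ φ₁ φ₂ (by omega) hS hN m₂ hm2 c1 c2
    have c5 := h3 T q β x w V φ φ₁ φ₂ (by omega) hS m₂ hm2 c3 c4
    exact h4 T w V (by omega) hS.env m₁ m₂ hm2 hm c5 ⟨ha, hb⟩
  · exact ⟨0, fun T q β x w V φ φ₁ φ₂ _ hS _ => absurd hS.K1 hK⟩

theorem env_rng {p : ℝ → ℝ} (hp : IsP p) (x : ℝ) (k : ℤ) : 0 ≤ env p x k ∧ env p x k ≤ 1 :=
  ⟨(hp.rng _).1.le, (hp.rng _).2.le⟩

/-- the reflected transition function -/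
noncomputable def rp (p : ℝ → ℝ) (y : ℝ) : ℝ := 1 - p (-y)

theorem rp_isP {p : ℝ → ℝ} (hp : IsP p) : IsP (rp p) where
  smooth := by
    unfold rp
    exact contDiff_const.sub (hp.smooth.comp contDiff_neg)
  per := by
    intro x
    unfold rp
    have h := hp.per (-(x + 1))
    have e : -(x + 1) + 1 = -x := by ring
    rw [e] at h
    rw [h]
  rng := by
    intro x
    have h := hp.rng (-x)
    unfold rp
    constructor <;> linarith [h.1, h.2]
  sym := by
    unfold rp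
    have hsym := hp.sym
    have hf : Function.Periodic (fun x => Real.log (p x)) 1 := fun x => by simp only [hp.per x]
    have hg : Function.Periodic (fun x => Real.log (1 - p x)) 1 := fun x => by
      simp only [hp.per x]
    have e1 : (∫ x in (0:ℝ)..1, Real.log (1 - p (-x)))
        = ∫ x in (0:ℝ)..1, Real.log (1 - p x) := by
      rw [intervalIntegral.integral_comp_neg (fun x => Real.log (1 - p x))]
      have := hg.intervalIntegral_add_eq (-1) 0
      simpa using this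
    have e2 : (∫ x in (0:ℝ)..1, Real.log (1 - (1 - p (-x))))
        = ∫ x in (0:ℝ)..1, Real.log (p x) := by
      simp only [sub_sub_cancel]
      rw [intervalIntegral.integral_comp_neg (fun x => Real.log (p x))]
      have := hf.intervalIntegral_add_eq (-1) 0
      simpa using this
    rw [e1, e2, hsym]

theorem env_rp (p : ℝ → ℝ) (x : ℝ) : env (rp p) (-x) = refl (env p x) := by
  funext k
  unfold env rp refl
  congr 2
  push_cast
  ring

theorem good_refl (h : S_Hit) {w : ℤ → ℝ} {T : ℕ} (hg : Good (refl w) T) : Good w T := by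
  obtain ⟨c, hc⟩ := hg
  refine ⟨-c, ?_⟩
  have := h.h18 w (fun k => ((k : ℝ) - c) ^ 2) T 0
  rw [this] at hc
  have e : (fun b : ℤ => (((-b : ℤ) : ℝ) - c) ^ 2) = fun b : ℤ => ((b : ℝ) - -c) ^ 2 := by
    funext b
    push_cast
    ring
  simp only [e, neg_zero] at hc
  exact hc

theorem main (h : S_Hit) (hsp : S_Split) (hbc : S_BC) (hint : S_Int) :
    ∀ p : ℝ → ℝ, IsP p → ∀ᵐ x : ℝ, ∀ᶠ T : ℕ in atTop,
      vr (env p x) T ≤ (T : ℝ) ^ (1.99 : ℝ) := by
  intro p hp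
  have h1 := hbc p hp
  have h2 := hbc (rp p) (rp_isP hp)
  have h3 : ∀ᵐ x : ℝ, ∀ᶠ j : ℕ in atTop,
      Good (env (rp p) (-x)) (j ^ 30) ∨ ¬ SplitR (env (rp p) (-x)) (j ^ 30) := by
    have hq : Measure.QuasiMeasurePreserving (fun x : ℝ => -x) volume volume :=
      (Measure.measurePreserving_neg (volume : Measure ℝ)).quasiMeasurePreserving
    exact hq.ae h2
  filter_upwards [h1, h3] with x a1 a2
  apply hint _ (env_rng hp x)
  filter_upwards [a1, a2, eventually_ge_atTop 1] with j b1 b2 hj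
  rw [env_rp] at b2
  rcases b1 with b1 | b1
  · exact b1
  rcases b2 with b2 | b2
  · exact good_refl h b2
  have hj30 : 1 ≤ j ^ 30 := Nat.one_le_pow _ _ hj
  obtain ⟨c, hc⟩ := hsp _ (env_rng hp x) (j ^ 30) hj30 b1 b2
  refine ⟨c, hc.trans ?_⟩
  have : (1 : ℝ) ≤ ((j ^ 30 : ℕ) : ℝ) := by exact_mod_cast hj30
  have := Real.rpow_le_rpow_of_exponent_le this (show (1.98 : ℝ) ≤ 1.985 by norm_num)
  linarith

/-- the law and the iterates of the transition operator -/
theorem pop_one (w : ℤ → ℝ) (k : ℤ) :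
    Pop w (one k) = fun b => (fun b => w (k - 1) * one (k - 1) b) b
      + (1 - w (k + 1)) * one (k + 1) b := by
  funext b
  unfold Pop one
  by_cases h1 : b = k - 1
  · subst h1
    have e1 : ¬ (k - 1 - 1 = k) := by omega
    have e2 : ¬ (k - 1 = k + 1) := by omega
    simp [e1, e2]
  · by_cases h2 : b = k + 1
    · subst h2
      have : ¬ (k + 1 + 1 = k) := by omega
      have h3 : ¬ (k + 1 = k - 1) := by omega
      simp [this, h3]
    · have h3 : ¬ (b + 1 = k) := by omega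
      have h4 : ¬ (b - 1 = k) := by omega
      simp [h1, h2, h3, h4]

theorem ex_succ (h : S_Hit) (w : ℤ → ℝ) (f : ℤ → ℝ) (t : ℕ) (k : ℤ) :
    Ex w (t + 1) f k = Ex w t (Pop w f) k := by
  have := h.h17 w f t 1 k
  rw [this]
  rfl

theorem law_eq (h : S_Hit) (w : ℤ → ℝ) : ∀ (t : ℕ) (k : ℤ), law w t k = Ex w t (one k) 0 := by
  intro t
  induction t with
  | zero =>
    intro k
    unfold law Ex one
    by_cases hk : k = 0
    · simp [hk]
    · have : ¬ (0 = k) := fun e => hk e.symm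
      simp [hk, this]
  | succ t ih =>
    intro k
    rw [ex_succ h, pop_one, h.h15 w (fun b => w (k - 1) * one (k - 1) b) (one (k + 1))]
    have h0 : Ex w t (fun b => w (k - 1) * one (k - 1) b) 0
        = w (k - 1) * Ex w t (one (k - 1)) 0 := by
      have := h.h15 w (fun _ => 0) (one (k - 1)) (w (k - 1)) t 0
      simp only [zero_add] at this
      rw [this, h.h16]
      ring
    rw [h0, ← ih, ← ih]
    rfl

theorem law_zero (h : S_Hit) (w : ℤ → ℝ) (t : ℕ) (k : ℤ) (hk : k ∉ Finset.Icc (-(t : ℤ)) t) :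
    law w t k = 0 := by
  rw [law_eq h, h.h13 w (one k) t 0]
  apply Finset.sum_eq_zero
  intro b hb
  have : ¬ (b = k) := by
    rintro rfl
    apply hk
    simpa using hb
  simp [one, this]

theorem tsum_law (h : S_Hit) (w : ℤ → ℝ) (t : ℕ) (g : ℤ → ℝ) :
    ∑' k : ℤ, g k * law w t k = Ex w t g 0 := by
  rw [tsum_eq_sum (s := Finset.Icc (-(t : ℤ)) t)]
  · rw [h.h13 w g t 0]
    simp only [zero_sub, zero_add]
    apply Finset.sum_congr rfl
    intro b _
    rw [law_eq h]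
    ring
  · intro b hb
    rw [law_zero h w t b hb, mul_zero]

/-- the law is a probability law -/
theorem law_sum (h : S_Hit) (w : ℤ → ℝ) (t : ℕ) : ∑' k : ℤ, law w t k = 1 := by
  have := tsum_law h w t (fun _ => 1)
  simp only [one_mul] at this
  rw [this, h.h16]

/-- the variance is nonnegative -/
theorem vr_nonneg (h : S_Hit) {w : ℤ → ℝ} (hw : ∀ k, 0 ≤ w k ∧ w k ≤ 1) (t : ℕ) :
    0 ≤ vr w t := by
  unfold vr
  rw [tsum_law h, tsum_law h]
  set c := Ex w t (fun k => (k : ℝ)) 0 with hc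
  have h1 : Ex w t (fun k => ((k : ℝ) - c) ^ 2) 0 = Ex w t (fun k => (k : ℝ) ^ 2) 0 - c ^ 2 := by
    have e : (fun k : ℤ => ((k : ℝ) - c) ^ 2)
        = fun k => (fun k : ℤ => (k : ℝ) ^ 2 + (-2 * c) * (k : ℝ)) k + c ^ 2 * 1 := by
      funext k
      ring
    rw [e, h.h15 w (fun k : ℤ => (k : ℝ) ^ 2 + (-2 * c) * (k : ℝ)) (fun _ => 1), h.h16,
      h.h15 w (fun k : ℤ => (k : ℝ) ^ 2) (fun k : ℤ => (k : ℝ)), ← hc]
    ring
  rw [← h1]
  have h2 := h.h14 w hw (fun _ => 0) (fun k => ((k : ℝ) - c) ^ 2) t 0 (fun b _ _ => by positivity)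
  rw [h.h16] at h2
  exact h2

/-- `a` is Diophantine -/
def Dio (a : ℝ) : Prop := ∃ γ τ : ℝ, 0 < γ ∧ 0 ≤ τ ∧ ∀ (p : ℤ) (q : ℕ), 1 ≤ q →
    γ * (q : ℝ) ^ (-2 - τ) ≤ |a - p / q|

/-- the upper growth exponent of the variance -/
noncomputable def expo (w : ℤ → ℝ) : EReal :=
  limsup (fun T : ℕ => ((Real.log (vr w T) / Real.log T : ℝ) : EReal)) atTop

theorem expo_le (h : S_Hit) {w : ℤ → ℝ} (hw : ∀ k, 0 ≤ w k ∧ w k ≤ 1)
    (hv : ∀ᶠ T : ℕ in atTop, vr w T ≤ (T : ℝ) ^ (1.99 : ℝ)) :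
    expo w ≤ ((1.99 : ℝ) : EReal) := by
  unfold expo
  apply Filter.limsup_le_of_le
  · isBoundedDefault
  filter_upwards [hv, eventually_ge_atTop 2] with T hT h2
  rw [EReal.coe_le_coe_iff]
  have hT2 : (2 : ℝ) ≤ T := by exact_mod_cast h2
  have hlog : 0 < Real.log T := Real.log_pos (by linarith)
  rw [div_le_iff₀ hlog]
  rcases eq_or_lt_of_le (vr_nonneg h hw T) with h0 | h0
  · rw [← h0, Real.log_zero]
    positivity
  · calc Real.log (vr w T) ≤ Real.log ((T : ℝ) ^ (1.99 : ℝ)) := Real.log_le_log h0 hT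
      _ = 1.99 * Real.log T := Real.log_rpow (by linarith) _

theorem expo_ne_two (h : S_Hit) {w : ℤ → ℝ} (hw : ∀ k, 0 ≤ w k ∧ w k ≤ 1)
    (hv : ∀ᶠ T : ℕ in atTop, vr w T ≤ (T : ℝ) ^ (1.99 : ℝ)) : expo w ≠ 2 := by
  have h1 := expo_le h hw hv
  intro e
  rw [e] at h1
  have : ((2 : ℝ) : EReal) ≤ ((1.99 : ℝ) : EReal) := h1
  rw [EReal.coe_le_coe_iff] at this
  norm_num at this

/-- the constant function `1/2` is in the class -/
theorem half_isP : IsP (fun _ => 1 / 2) where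
  smooth := contDiff_const
  per := fun _ => rfl
  rng := fun _ => by norm_num
  sym := by norm_num

end Q289.LV
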