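import Pool.Agent.Q289.LV.Defs

/-! Project LV (MP_545af4_pr): statements of the lemma jobs. -/

open Filter MeasureTheory

namespace Q289.LV

/-- Job HIT: elementary facts, all by induction on the time. -/
structure S_Hit : Prop where
  h0 : ∀ w : ℤ → ℝ, (∀ k, 0 ≤ w k ∧ w k ≤ 1) → ∀ (b : ℤ) (t : ℕ) (k : ℤ),
    0 ≤ Hit w b t k ∧ Hit w b t k ≤ 1
  l0 : ∀ w : ℤ → ℝ, (∀ k, 0 ≤ w k ∧ w k ≤ 1) → ∀ (a : ℤ) (t : ℕ) (k : ℤ),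
    0 ≤ HitL w a t k ∧ HitL w a t k ≤ 1
  /-- monotone in the starting point -/
  h3 : ∀ w : ℤ → ℝ, (∀ k, 0 ≤ w k ∧ w k ≤ 1) → ∀ (b : ℤ) (t : ℕ) (k k' : ℤ), k ≤ k' →
    Hit w b t k ≤ Hit w b t k'
  l3 : ∀ w : ℤ → ℝ, (∀ k, 0 ≤ w k ∧ w k ≤ 1) → ∀ (a : ℤ) (t : ℕ) (k k' : ℤ), k ≤ k' →
    HitL w a t k' ≤ HitL w a t k
  /-- monotone in the target -/
  h4 : ∀ w : ℤ → ℝ, (∀ k, 0 ≤ w k ∧ w k ≤ 1) → ∀ (b b' : ℤ) (t : ℕ) (k : ℤ), b ≤ b' →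
    Hit w b' t k ≤ Hit w b t k
  l4 : ∀ w : ℤ → ℝ, (∀ k, 0 ≤ w k ∧ w k ≤ 1) → ∀ (a a' : ℤ) (t : ℕ) (k : ℤ), a ≤ a' →
    HitL w a t k ≤ HitL w a' t k
  h5 : ∀ w : ℤ → ℝ, (∀ k, 0 ≤ w k ∧ w k ≤ 1) → ∀ (b : ℤ) (t : ℕ) (k : ℤ),
    Ex w t (geI b) k ≤ Hit w b t k
  l5 : ∀ w : ℤ → ℝ, (∀ k, 0 ≤ w k ∧ w k ≤ 1) → ∀ (a : ℤ) (t : ℕ) (k : ℤ),
    Ex w t (leI a) k ≤ HitL w a t k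
  h6 : ∀ w : ℤ → ℝ, (∀ k, 0 ≤ w k ∧ w k ≤ 1) → ∀ (b : ℤ) (t : ℕ) (k : ℤ), k ≤ b →
    Hit w b t k ≤ ∑ s ∈ Finset.range (t + 1), Ex w s (one b) k
  l6 : ∀ w : ℤ → ℝ, (∀ k, 0 ≤ w k ∧ w k ≤ 1) → ∀ (a : ℤ) (t : ℕ) (k : ℤ), a ≤ k →
    HitL w a t k ≤ ∑ s ∈ Finset.range (t + 1), Ex w s (one a) k
  /-- to be at the left of `m` at time `t` the walk has either not hit `m'` or goes back from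
  `m'` to `m` -/
  h8 : ∀ w : ℤ → ℝ, (∀ k, 0 ≤ w k ∧ w k ≤ 1) → ∀ (m m' : ℤ) (t : ℕ) (k : ℤ), m < m' → k ≤ m' →
    Ex w t (leI m) k ≤ (1 - Hit w m' t k) + HitL w m t m'
  /-- comparison with the environment reflecting at `-L` -/
  h9 : ∀ w v : ℤ → ℝ, (∀ k, 0 ≤ w k ∧ w k ≤ 1) → ∀ L : ℤ, (∀ k, k ≤ -L → v k = 1) →
    (∀ k, -L < k → v k = w k) → ∀ (b : ℤ) (t : ℕ) (k : ℤ),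
    |Hit w b t k - Hit v b t k| ≤ HitL w (-L) t k
  /-- finite speed -/
  h12 : ∀ w : ℤ → ℝ, ∀ (b : ℤ) (t : ℕ) (k : ℤ), k + t < b → Ex w t (geI b) k = 0
  /-- decomposition -/
  h13 : ∀ w : ℤ → ℝ, ∀ (f : ℤ → ℝ) (t : ℕ) (k : ℤ),
    Ex w t f k = ∑ b ∈ Finset.Icc (k - t) (k + t), Ex w t (one b) k * f b
  /-- comparison of functions -/
  h14 : ∀ w : ℤ → ℝ, (∀ k, 0 ≤ w k ∧ w k ≤ 1) → ∀ (f g : ℤ → ℝ) (t : ℕ) (k : ℤ),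
    (∀ b, k - t ≤ b → b ≤ k + t → f b ≤ g b) → Ex w t f k ≤ Ex w t g k
  h15 : ∀ w : ℤ → ℝ, ∀ (f g : ℤ → ℝ) (c : ℝ) (t : ℕ) (k : ℤ),
    Ex w t (fun b => f b + c * g b) k = Ex w t f k + c * Ex w t g k
  h16 : ∀ w : ℤ → ℝ, ∀ (c : ℝ) (t : ℕ) (k : ℤ), Ex w t (fun _ => c) k = c
  h17 : ∀ w : ℤ → ℝ, ∀ (f : ℤ → ℝ) (s t : ℕ) (k : ℤ), Ex w (s + t) f k = Ex w s (Ex w t f) k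
  /-- reflection -/
  h18 : ∀ w : ℤ → ℝ, ∀ (f : ℤ → ℝ) (t : ℕ) (k : ℤ),
    Ex (refl w) t f k = Ex w t (fun b => f (-b)) (-k)

/-- Job REV (reversibility): with `π k = exp (- V k) / w k` one has
`π k w k = π (k+1) (1 - w (k+1)) = exp (- V k)`, hence `π a P^t(a,b) = π b P^t(b,a) ≤ π b`. -/
def S_Rev : Prop := ∀ (κ : ℝ) (w V : ℤ → ℝ), Env κ w V → ∀ (t : ℕ) (a b : ℤ),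
  Ex w t (one b) a ≤ (1 / κ) * Real.exp (V a - V b)

/-- Job CAR (Varadhan–Carne bound). -/
def S_Car : Prop := ∀ (κ : ℝ) (w V : ℤ → ℝ), Env κ w V → ∀ (t : ℕ) (a b : ℤ), 1 ≤ t →
  Ex w t (one b) a ≤ (2 / κ) * Real.exp ((V a - V b) / 2) *
    Real.exp (-((b : ℝ) - a) ^ 2 / (2 * t))

/-- Job CONC: concentration of the hitting times in an environment reflecting at `-L` whose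
potential decreases linearly. -/
def S_Conc : Prop := ∀ (κ A σ : ℝ) (L : ℕ) (B : ℤ) (v : ℤ → ℝ), 0 < κ → κ ≤ 1 / 2 → 1 ≤ A →
  0 < σ → σ ≤ 1 →
  (∀ k : ℤ, k ≤ -(L : ℤ) → v k = 1) → (∀ k : ℤ, -(L : ℤ) < k → κ ≤ v k ∧ v k ≤ 1 - κ) →
  (∀ i k : ℤ, -(L : ℤ) ≤ i → i ≤ k → k < B →
    ∏ j ∈ Finset.Ioc i k, ((1 - v j) / v j) ≤ A * Real.exp (-σ * ((k : ℝ) - i))) →
  ∃ μ : ℤ → ℝ,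
    (∀ b' b'' : ℤ, 0 ≤ b' → b' ≤ b'' → b'' ≤ B → (b'' : ℝ) - b' ≤ μ b'' - μ b') ∧
    ∀ (b : ℤ) (T : ℕ), 0 < b → b ≤ B →
      ((T : ℝ) < μ b →
        Hit v b T 0 ≤ 32 * b * A ^ 3 / (κ ^ 2 * σ ^ 3 * (μ b - T) ^ 2)) ∧
      (μ b < T →
        1 - Hit v b T 0 ≤ 32 * b * A ^ 3 / (κ ^ 2 * σ ^ 3 * (T - μ b) ^ 2))

/-- Job SLOW: crossing `n` consecutive segments each of which contains a climb `≥ D`. -/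
def S_Slow : Prop := ∀ (κ : ℝ) (w V : ℤ → ℝ), Env κ w V → ∀ (D : ℝ) (n : ℕ) (a : ℕ → ℤ),
  4 / κ ≤ Real.exp D →
  (∀ j < n, ∃ c d : ℤ, a j ≤ c ∧ c < d ∧ d ≤ a (j + 1) ∧ D ≤ V d - V c) →
  ∀ T : ℕ, Hit w (a n) T (a 0) ≤ Real.exp (4 * T * Real.exp (-D) / κ - n / 4)

/-- Job SPLIT. -/
def S_Split : Prop := ∀ w : ℤ → ℝ, (∀ k, 0 ≤ w k ∧ w k ≤ 1) → ∀ T : ℕ, 1 ≤ T →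
  ¬ SplitR w T → ¬ SplitR (refl w) T →
  ∃ c : ℝ, Ex w T (fun k => ((k : ℝ) - c) ^ 2) 0 ≤ 9 * (T : ℝ) ^ (1.98 : ℝ)

/-- Job CALC. -/
def S_Calc : Prop := ∀ (Φ Φ₁ Φ₂ : ℝ → ℝ) (B η : ℝ) (n N : ℕ),
  (∀ s, HasDerivAt Φ (Φ₁ s) s) → (∀ s, HasDerivAt Φ₁ (Φ₂ s) s) → (∀ s, |Φ₂ s| ≤ B) →
  0 < η → 1 ≤ n → n + 1 ≤ N → B * ((n : ℝ) + 1) ^ 2 ≤ 2 * η →
  (∀ i : ℕ, i + n ≤ N → 2 * η * n ≤ ∑ j ∈ Finset.range n, Φ ((i : ℝ) + j)) →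
  η ≤ Φ 0 → ∀ s : ℝ, 0 ≤ s → s ≤ (N : ℝ) - n - 1 → η ≤ Φ s

/-- Job BAD. -/
def S_Bad : Prop := ∀ (φ φ₁ φ₂ : ℝ → ℝ) (B η κ a : ℝ),
  (∀ y, HasDerivAt φ (φ₁ y) y) → (∀ y, HasDerivAt φ₁ (φ₂ y) y) →
  (∀ y, |φ₁ y| ≤ B) → (∀ y, |φ₂ y| ≤ B) → 0 < η → 0 < κ →
  volume {y : ℝ | y ∈ Set.Icc a (a + 1) ∧ |φ y| < η ∧ κ < |φ₁ y|} ≤
    ENNReal.ofReal (12 * B * η / κ ^ 2)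

/-- Job EQ: equidistribution of the points `x + j P / q` for smooth functions. -/
def S_Eq : Prop := ∀ g : ℝ → ℝ, ContDiff ℝ (⊤ : ℕ∞) g → (∀ x, g (x + 1) = g x) →
  (∫ x in (0:ℝ)..1, g x) = 0 → ∀ N : ℕ, ∃ C : ℝ, ∀ (q P : ℕ), 1 ≤ q → P.Coprime q → ∀ x : ℝ,
  |∑ j ∈ Finset.range q, g (x + j * (P / q))| ≤ C / (q : ℝ) ^ N

/-- Job AR: arithmetic of the rotation number. -/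
structure S_Ar : Prop where
  rng : 0 < al ∧ al < 1
  irr : Irrational al
  notDio : ¬ ∃ γ τ : ℝ, 0 < γ ∧ 0 ≤ τ ∧ ∀ (p : ℤ) (q : ℕ), 1 ≤ q →
    γ * (q : ℝ) ^ (-2 - τ) ≤ |al - p / q|
  app : ∀ n : ℕ, 1 ≤ n → ∃ P : ℕ, P.Coprime (qn n) ∧
    (qn n : ℝ) / qn (n + 1) ≤ qn n * al - P ∧ qn n * al - P ≤ 2 * (qn n : ℝ) / qn (n + 1)

/-- Job CASEA. -/
def S_CaseA : Prop := ∀ κ : ℝ, 0 < κ → ∃ T₀ : ℕ, ∀ (T q : ℕ) (w V : ℤ → ℝ), T₀ ≤ T → 1 ≤ q →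
  Env κ w V → (q : ℝ) ^ (1.01 : ℝ) ≤ T → (∀ k : ℤ, |V (k + q) - V k| ≤ 1 / T) →
  Ex w T (fun k => (k : ℝ) ^ 2) 0 ≤ (T : ℝ) ^ (1.985 : ℝ)

/-- Job B1: a walk which reaches `m₂` with probability `≥ T^-0.02` sees no large climb, goes
down on average, and the oscillation of the potential on the blocks is small. -/
def S_B1 : Prop := ∀ κ K : ℝ, 0 < κ → ∃ T₀ : ℕ, ∀ (T q : ℕ) (β x : ℝ) (w V : ℤ → ℝ)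
  (φ φ₁ φ₂ : ℝ → ℝ), T₀ ≤ T → SetB κ K T q β x w V φ φ₁ φ₂ → ∀ m₂ : ℤ,
  (1 / 2) * (T : ℝ) ^ (0.99 : ℝ) ≤ m₂ → (T : ℝ) ^ (-0.02 : ℝ) ≤ Ex w T (geI m₂) 0 →
  (∀ a b : ℤ, 0 ≤ a → a < b → b ≤ m₂ →
    ((b : ℝ) - a) ^ 2 / T - 3 * Real.log T ≤ V a - V b) ∧
  (∀ a b : ℤ, 0 ≤ a → a < b → b ≤ m₂ → V b - V a ≤ 2 * Real.log T) ∧
  (∀ i k k' : ℤ, 0 ≤ i → ((i : ℝ) + 1) * q ≤ m₂ - 2 * (T : ℝ) ^ (0.96 : ℝ) →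
    i * q ≤ k → k ≤ (i + 1) * q → i * q ≤ k' → k' ≤ (i + 1) * q →
    V k - V k' ≤ 0.08 * Real.log T + (2 * K + 1))

/-- Job B2: the slopes. -/
def S_B2 : Prop := ∀ κ K : ℝ, 0 < κ → ∃ T₀ : ℕ, ∀ (T q : ℕ) (β x : ℝ) (w V : ℤ → ℝ)
  (φ φ₁ φ₂ : ℝ → ℝ), T₀ ≤ T → SetB κ K T q β x w V φ φ₁ φ₂ → NotBad T q x φ φ₁ → ∀ m₂ : ℤ,
  (1 / 2) * (T : ℝ) ^ (0.99 : ℝ) ≤ m₂ →
  (∀ a b : ℤ, 0 ≤ a → a < b → b ≤ m₂ →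
    ((b : ℝ) - a) ^ 2 / T - 3 * Real.log T ≤ V a - V b) →
  (∀ a b : ℤ, 0 ≤ a → a < b → b ≤ m₂ → V b - V a ≤ 2 * Real.log T) →
  ∀ i : ℤ, -(T : ℝ) ^ (0.6 : ℝ) ≤ i * q → (i : ℝ) * q ≤ m₂ - 2 * (T : ℝ) ^ (0.96 : ℝ) →
    φ (x + i * β) ≤ -((1 / 8) * q * (T : ℝ) ^ (-0.1 : ℝ))

/-- Job B3: the potential decreases linearly up to `0.16 log T`. -/
def S_B3 : Prop := ∀ κ K : ℝ, 0 < κ → ∃ T₀ : ℕ, ∀ (T q : ℕ) (β x : ℝ) (w V : ℤ → ℝ)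
  (φ φ₁ φ₂ : ℝ → ℝ), T₀ ≤ T → SetB κ K T q β x w V φ φ₁ φ₂ → ∀ m₂ : ℤ,
  (1 / 2) * (T : ℝ) ^ (0.99 : ℝ) ≤ m₂ →
  (∀ i k k' : ℤ, 0 ≤ i → ((i : ℝ) + 1) * q ≤ m₂ - 2 * (T : ℝ) ^ (0.96 : ℝ) →
    i * q ≤ k → k ≤ (i + 1) * q → i * q ≤ k' → k' ≤ (i + 1) * q →
    V k - V k' ≤ 0.08 * Real.log T + (2 * K + 1)) →
  (∀ i : ℤ, -(T : ℝ) ^ (0.6 : ℝ) ≤ i * q → (i : ℝ) * q ≤ m₂ - 2 * (T : ℝ) ^ (0.96 : ℝ) →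
    φ (x + i * β) ≤ -((1 / 8) * q * (T : ℝ) ^ (-0.1 : ℝ))) →
  ∀ k k' : ℤ, -(T : ℝ) ^ (0.5 : ℝ) ≤ k → k ≤ k' → (k' : ℝ) ≤ m₂ - 3 * (T : ℝ) ^ (0.96 : ℝ) →
    V k' - V k ≤ 0.16 * Real.log T + (8 * K + 3) -
      (1 / 8) * (T : ℝ) ^ (-0.1 : ℝ) * ((k' : ℝ) - k)

/-- Job B4: such a walk is not split. -/
def S_B4 : Prop := ∀ κ C : ℝ, 0 < κ → 0 ≤ C → ∃ T₀ : ℕ, ∀ (T : ℕ) (w V : ℤ → ℝ), T₀ ≤ T →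
  Env κ w V → ∀ m₁ m₂ : ℤ, (1 / 2) * (T : ℝ) ^ (0.99 : ℝ) ≤ m₂ →
  (T : ℝ) ^ (0.99 : ℝ) ≤ m₂ - m₁ →
  (∀ k k' : ℤ, -(T : ℝ) ^ (0.5 : ℝ) ≤ k → k ≤ k' →
    (k' : ℝ) ≤ m₂ - 3 * (T : ℝ) ^ (0.96 : ℝ) →
    V k' - V k ≤ 0.16 * Real.log T + C - (1 / 8) * (T : ℝ) ^ (-0.1 : ℝ) * ((k' : ℝ) - k)) →
  ¬ ((T : ℝ) ^ (-0.02 : ℝ) ≤ Ex w T (leI m₁) 0 ∧ (T : ℝ) ^ (-0.02 : ℝ) ≤ Ex w T (geI m₂) 0)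

/-- Case B (to be assembled from B1–B4). -/
def S_CaseB : Prop := ∀ κ K : ℝ, 0 < κ → ∃ T₀ : ℕ, ∀ (T q : ℕ) (β x : ℝ) (w V : ℤ → ℝ)
  (φ φ₁ φ₂ : ℝ → ℝ), T₀ ≤ T → SetB κ K T q β x w V φ φ₁ φ₂ → NotBad T q x φ φ₁ →
  ¬ SplitR w T

/-- Job ENV: the quasi-periodic environment fits the two settings. -/
def S_Env : Prop := ∀ p : ℝ → ℝ, IsP p → ∃ κ K : ℝ, 0 < κ ∧ 1 ≤ K ∧ ∃ n₀ : ℕ,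
  ∀ (n T : ℕ), n₀ ≤ n → (qn n : ℝ) ^ (1.01 : ℝ) ≤ T → (T : ℝ) ≤ (qn (n + 1) : ℝ) ^ (1.01 : ℝ) →
  ∃ (β : ℝ) (φ φ₁ φ₂ : ℝ → ℝ), ∀ x : ℝ, ∃ V : ℤ → ℝ,
    ((T : ℝ) ≤ (qn n : ℝ) ^ 30 →
      Env κ (env p x) V ∧ ∀ k : ℤ, |V (k + qn n) - V k| ≤ 1 / T) ∧
    ((qn n : ℝ) ^ 30 ≤ T → SetB κ K T (qn n) β x (env p x) V φ φ₁ φ₂)

/-- Job BC (Borel–Cantelli along `T = j^30`). -/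
def S_BC : Prop := ∀ p : ℝ → ℝ, IsP p → ∀ᵐ x : ℝ, ∀ᶠ j : ℕ in atTop,
  Good (env p x) (j ^ 30) ∨ ¬ SplitR (env p x) (j ^ 30)

/-- Job INT (interpolation between the times `j^30`). -/
def S_Int : Prop := ∀ w : ℤ → ℝ, (∀ k, 0 ≤ w k ∧ w k ≤ 1) →
  (∀ᶠ j : ℕ in atTop, Good w (j ^ 30)) → ∀ᶠ T : ℕ in atTop, vr w T ≤ (T : ℝ) ^ (1.99 : ℝ)

end Q289.LV
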